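import Mathlib

/-!
Finite data and kernel-checked searches for the counterexample over the cyclic group of order 4.
-/

set_option autoImplicit false
set_option maxRecDepth 100000
set_option synthInstance.maxSize 100000

namespace Pool.Agent.P.MP_c446d6_co

attribute [local instance 20000] List.decidableBAll Finset.decidableDforallFinset

/-- shift of the group coordinate of every vertex -/
def sh {r : ℕ} (h : ZMod 4) (σ : Finset (ZMod 4 × Fin r)) : Finset (ZMod 4 × Fin r) :=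
  σ.image (fun v => (h + v.1, v.2))

/-- the order relation of the target poset after shifting the first point by h -/
def R {n : ℕ} (h : ZMod 4) (x y : ZMod 4 × Fin n) : Prop :=
  x.2 < y.2 ∨ (x.2 = y.2 ∧ h + x.1 = y.1)

instance {n : ℕ} (h : ZMod 4) (x y : ZMod 4 × Fin n) : Decidable (R h x y) :=
  inferInstanceAs (Decidable (x.2 < y.2 ∨ (x.2 = y.2 ∧ h + x.1 = y.1)))

def K1 : List (Finset (ZMod 4 × Fin 3)) :=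
  [{(0, 0)},
   {(0, 1)},
   {(0, 2)},
   {(1, 0)},
   {(1, 1)},
   {(1, 2)},
   {(2, 0)},
   {(2, 1)},
   {(2, 2)},
   {(3, 0)},
   {(3, 1)},
   {(3, 2)},
   {(0, 0), (0, 1)},
   {(0, 0), (0, 2)},
   {(0, 0), (2, 1)},
   {(0, 0), (2, 2)},
   {(0, 1), (0, 2)},
   {(0, 1), (2, 0)},
   {(0, 1), (2, 2)},
   {(0, 2), (2, 0)},
   {(0, 2), (2, 1)},
   {(1, 0), (1, 1)},
   {(1, 0), (1, 2)},
   {(1, 0), (3, 1)},
   {(1, 0), (3, 2)},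
   {(1, 1), (1, 2)},
   {(1, 1), (3, 0)},
   {(1, 1), (3, 2)},
   {(1, 2), (3, 0)},
   {(1, 2), (3, 1)},
   {(2, 0), (2, 1)},
   {(2, 0), (2, 2)},
   {(2, 1), (2, 2)},
   {(3, 0), (3, 1)},
   {(3, 0), (3, 2)},
   {(3, 1), (3, 2)},
   {(0, 0), (0, 1), (0, 2)},
   {(0, 0), (0, 1), (2, 2)},
   {(0, 0), (0, 2), (2, 1)},
   {(0, 0), (2, 1), (2, 2)},
   {(0, 1), (0, 2), (2, 0)},
   {(0, 1), (2, 0), (2, 2)},
   {(0, 2), (2, 0), (2, 1)},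
   {(1, 0), (1, 1), (1, 2)},
   {(1, 0), (1, 1), (3, 2)},
   {(1, 0), (1, 2), (3, 1)},
   {(1, 0), (3, 1), (3, 2)},
   {(1, 1), (1, 2), (3, 0)},
   {(1, 1), (3, 0), (3, 2)},
   {(1, 2), (3, 0), (3, 1)},
   {(2, 0), (2, 1), (2, 2)},
   {(3, 0), (3, 1), (3, 2)}]

theorem searchK1 :
    ∀ a10 : ZMod 4 × Fin 2, 
    ∀ a6 : ZMod 4 × Fin 2, R 0 a6 a10 → 
    ∀ a0 : ZMod 4 × Fin 2, R 0 a0 a6 → 
    ∀ a3 : ZMod 4 × Fin 2, R 0 a0 a3 → R 0 a3 a10 → 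
    ∀ a1 : ZMod 4 × Fin 2, R 0 a1 a3 → 
    ∀ a9 : ZMod 4 × Fin 2, R 0 a3 a9 → 
    ∀ a7 : ZMod 4 × Fin 2, R 0 a1 a7 → R 0 a7 a9 → 
    ∀ a2 : ZMod 4 × Fin 2, R 2 a2 a6 → R 0 a2 a7 → 
    ∀ a12 : ZMod 4 × Fin 2, R 0 a6 a12 → R 2 a7 a12 → 
    ∀ a8 : ZMod 4 × Fin 2, R 0 a1 a8 → R 2 a2 a8 → R 0 a8 a10 → 
    ∀ a5 : ZMod 4 × Fin 2, R 0 a0 a5 → R 2 a1 a5 → R 0 a5 a12 → 
    ∀ a11 : ZMod 4 × Fin 2, R 0 a5 a11 → R 2 a8 a11 → 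
    ∀ a4 : ZMod 4 × Fin 2, R 0 a0 a4 → R 0 a2 a4 → R 0 a4 a9 → R 0 a4 a11 → 
    False := by
  decide +kernel

theorem no_map_K1 (ψ : Finset (ZMod 4 × Fin 3) → ZMod 4 × Fin 2)
    (key : ∀ (h : ZMod 4) (σ τ : Finset (ZMod 4 × Fin 3)),
      (σ ∈ K1 ∧ τ ∈ K1 ∧ sh h σ ∈ K1 ∧ sh h σ ⊆ τ) → R h (ψ σ) (ψ τ)) : False := by
  exact searchK1
    (ψ {(0, 0), (0, 1), (2, 2)})
    (ψ {(0, 0), (2, 2)})
      (key 0 _ _ (by decide +kernel))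
    (ψ {(0, 0)})
      (key 0 _ _ (by decide +kernel))
    (ψ {(0, 0), (0, 1)})
      (key 0 _ _ (by decide +kernel))
      (key 0 _ _ (by decide +kernel))
    (ψ {(0, 1)})
      (key 0 _ _ (by decide +kernel))
    (ψ {(0, 0), (0, 1), (0, 2)})
      (key 0 _ _ (by decide +kernel))
    (ψ {(0, 1), (0, 2)})
      (key 0 _ _ (by decide +kernel))
      (key 0 _ _ (by decide +kernel))
    (ψ {(0, 2)})
      (key 2 _ _ (by decide +kernel))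
      (key 0 _ _ (by decide +kernel))
    (ψ {(0, 0), (2, 1), (2, 2)})
      (key 0 _ _ (by decide +kernel))
      (key 2 _ _ (by decide +kernel))
    (ψ {(0, 1), (2, 2)})
      (key 0 _ _ (by decide +kernel))
      (key 2 _ _ (by decide +kernel))
      (key 0 _ _ (by decide +kernel))
    (ψ {(0, 0), (2, 1)})
      (key 0 _ _ (by decide +kernel))
      (key 2 _ _ (by decide +kernel))
      (key 0 _ _ (by decide +kernel))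
    (ψ {(0, 0), (0, 2), (2, 1)})
      (key 0 _ _ (by decide +kernel))
      (key 2 _ _ (by decide +kernel))
    (ψ {(0, 0), (0, 2)})
      (key 0 _ _ (by decide +kernel))
      (key 0 _ _ (by decide +kernel))
      (key 0 _ _ (by decide +kernel))
      (key 0 _ _ (by decide +kernel))

theorem K1_nonempty : ∀ σ ∈ K1, σ.Nonempty := by decide +kernel
theorem K1_down : ∀ σ ∈ K1, ∀ τ ∈ σ.powerset, τ.Nonempty → τ ∈ K1 := by decide +kernel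
theorem K1_vert : ∀ v : ZMod 4 × Fin 3, {v} ∈ K1 := by decide +kernel
theorem K1_sh : ∀ h : ZMod 4, ∀ σ ∈ K1, sh h σ ∈ K1 := by decide +kernel
theorem K1_free : ∀ h : ZMod 4, ∀ σ ∈ K1, sh h σ = σ → h = 0 := by decide +kernel

def K2 : List (Finset (ZMod 4 × Fin 2)) :=
  [{(0, 0)},
   {(0, 1)},
   {(1, 0)},
   {(1, 1)},
   {(2, 0)},
   {(2, 1)},
   {(3, 0)},
   {(3, 1)},
   {(0, 0), (0, 1)},
   {(0, 0), (1, 0)},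
   {(0, 0), (1, 1)},
   {(0, 0), (2, 1)},
   {(0, 0), (3, 0)},
   {(0, 0), (3, 1)},
   {(0, 1), (1, 0)},
   {(0, 1), (2, 0)},
   {(0, 1), (3, 0)},
   {(1, 0), (1, 1)},
   {(1, 0), (2, 0)},
   {(1, 0), (2, 1)},
   {(1, 0), (3, 1)},
   {(1, 1), (2, 0)},
   {(1, 1), (3, 0)},
   {(2, 0), (2, 1)},
   {(2, 0), (3, 0)},
   {(2, 0), (3, 1)},
   {(2, 1), (3, 0)},
   {(3, 0), (3, 1)},
   {(0, 0), (0, 1), (1, 0)},
   {(0, 0), (0, 1), (3, 0)},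
   {(0, 0), (1, 0), (1, 1)},
   {(0, 0), (1, 0), (2, 1)},
   {(0, 0), (1, 1), (3, 0)},
   {(0, 0), (3, 0), (3, 1)},
   {(0, 1), (2, 0), (3, 0)},
   {(1, 0), (1, 1), (2, 0)},
   {(1, 0), (2, 0), (2, 1)},
   {(1, 0), (2, 0), (3, 1)},
   {(2, 0), (2, 1), (3, 0)},
   {(2, 0), (3, 0), (3, 1)}]

theorem searchK2 :
    ∀ a3 : ZMod 4 × Fin 2, 
    ∀ a0 : ZMod 4 × Fin 2, R 0 a0 a3 → R 1 a0 a3 → 
    ∀ a7 : ZMod 4 × Fin 2, R 0 a3 a7 → 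
    ∀ a8 : ZMod 4 × Fin 2, R 3 a3 a8 → 
    ∀ a2 : ZMod 4 × Fin 2, R 0 a0 a2 → R 0 a2 a7 → R 0 a2 a8 → 
    ∀ a1 : ZMod 4 × Fin 2, R 0 a1 a2 → 
    ∀ a9 : ZMod 4 × Fin 2, R 0 a3 a9 → 
    ∀ a4 : ZMod 4 × Fin 2, R 0 a0 a4 → R 1 a1 a4 → R 3 a4 a8 → R 1 a4 a9 → 
    ∀ a5 : ZMod 4 × Fin 2, R 0 a0 a5 → R 2 a1 a5 → R 0 a5 a9 → 
    ∀ a6 : ZMod 4 × Fin 2, R 0 a0 a6 → R 3 a1 a6 → R 1 a6 a7 → 
    False := by
  decide +kernel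

theorem no_map_K2 (ψ : Finset (ZMod 4 × Fin 2) → ZMod 4 × Fin 2)
    (key : ∀ (h : ZMod 4) (σ τ : Finset (ZMod 4 × Fin 2)),
      (σ ∈ K2 ∧ τ ∈ K2 ∧ sh h σ ∈ K2 ∧ sh h σ ⊆ τ) → R h (ψ σ) (ψ τ)) : False := by
  exact searchK2
    (ψ {(0, 0), (1, 0)})
    (ψ {(0, 0)})
      (key 0 _ _ (by decide +kernel))
      (key 1 _ _ (by decide +kernel))
    (ψ {(0, 0), (0, 1), (1, 0)})
      (key 0 _ _ (by decide +kernel))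
    (ψ {(0, 0), (0, 1), (3, 0)})
      (key 3 _ _ (by decide +kernel))
    (ψ {(0, 0), (0, 1)})
      (key 0 _ _ (by decide +kernel))
      (key 0 _ _ (by decide +kernel))
      (key 0 _ _ (by decide +kernel))
    (ψ {(0, 1)})
      (key 0 _ _ (by decide +kernel))
    (ψ {(0, 0), (1, 0), (2, 1)})
      (key 0 _ _ (by decide +kernel))
    (ψ {(0, 0), (1, 1)})
      (key 0 _ _ (by decide +kernel))
      (key 1 _ _ (by decide +kernel))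
      (key 3 _ _ (by decide +kernel))
      (key 1 _ _ (by decide +kernel))
    (ψ {(0, 0), (2, 1)})
      (key 0 _ _ (by decide +kernel))
      (key 2 _ _ (by decide +kernel))
      (key 0 _ _ (by decide +kernel))
    (ψ {(0, 0), (3, 1)})
      (key 0 _ _ (by decide +kernel))
      (key 3 _ _ (by decide +kernel))
      (key 1 _ _ (by decide +kernel))

theorem K2_nonempty : ∀ σ ∈ K2, σ.Nonempty := by decide +kernel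
theorem K2_down : ∀ σ ∈ K2, ∀ τ ∈ σ.powerset, τ.Nonempty → τ ∈ K2 := by decide +kernel
theorem K2_vert : ∀ v : ZMod 4 × Fin 2, {v} ∈ K2 := by decide +kernel
theorem K2_sh : ∀ h : ZMod 4, ∀ σ ∈ K2, sh h σ ∈ K2 := by decide +kernel
theorem K2_free : ∀ h : ZMod 4, ∀ σ ∈ K2, sh h σ = σ → h = 0 := by decide +kernel

/-- a map on the faces of K2 which is equivariant only for the subgroup of order 2 -/
def chiL : List (Finset (ZMod 4 × Fin 2) × (ZMod 4 × Fin 2)) :=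
  [({(0, 0)}, (0, 0)),
   ({(0, 1)}, (0, 0)),
   ({(1, 0)}, (0, 0)),
   ({(1, 1)}, (0, 0)),
   ({(2, 0)}, (2, 0)),
   ({(2, 1)}, (2, 0)),
   ({(3, 0)}, (2, 0)),
   ({(3, 1)}, (2, 0)),
   ({(0, 0), (0, 1)}, (0, 0)),
   ({(0, 0), (1, 0)}, (0, 0)),
   ({(0, 0), (1, 1)}, (0, 0)),
   ({(0, 0), (2, 1)}, (0, 1)),
   ({(0, 0), (3, 0)}, (2, 1)),
   ({(0, 0), (3, 1)}, (2, 1)),
   ({(0, 1), (1, 0)}, (0, 0)),
   ({(0, 1), (2, 0)}, (2, 1)),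
   ({(0, 1), (3, 0)}, (2, 1)),
   ({(1, 0), (1, 1)}, (0, 0)),
   ({(1, 0), (2, 0)}, (0, 1)),
   ({(1, 0), (2, 1)}, (0, 1)),
   ({(1, 0), (3, 1)}, (0, 1)),
   ({(1, 1), (2, 0)}, (0, 1)),
   ({(1, 1), (3, 0)}, (2, 1)),
   ({(2, 0), (2, 1)}, (2, 0)),
   ({(2, 0), (3, 0)}, (2, 0)),
   ({(2, 0), (3, 1)}, (2, 0)),
   ({(2, 1), (3, 0)}, (2, 0)),
   ({(3, 0), (3, 1)}, (2, 0)),
   ({(0, 0), (0, 1), (1, 0)}, (0, 0)),
   ({(0, 0), (0, 1), (3, 0)}, (2, 1)),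
   ({(0, 0), (1, 0), (1, 1)}, (0, 0)),
   ({(0, 0), (1, 0), (2, 1)}, (0, 1)),
   ({(0, 0), (1, 1), (3, 0)}, (2, 1)),
   ({(0, 0), (3, 0), (3, 1)}, (2, 1)),
   ({(0, 1), (2, 0), (3, 0)}, (2, 1)),
   ({(1, 0), (1, 1), (2, 0)}, (0, 1)),
   ({(1, 0), (2, 0), (2, 1)}, (0, 1)),
   ({(1, 0), (2, 0), (3, 1)}, (0, 1)),
   ({(2, 0), (2, 1), (3, 0)}, (2, 0)),
   ({(2, 0), (3, 0), (3, 1)}, (2, 0))]

def chi (τ : Finset (ZMod 4 × Fin 2)) : ZMod 4 × Fin 2 :=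
  ((chiL.find? (fun p => decide (p.1 = τ))).map Prod.snd).getD (0, 0)

/-- twisted version: e is the parity (0 or 1) of the component of K1 -/
def chiT (e : ZMod 4) (τ : Finset (ZMod 4 × Fin 2)) : ZMod 4 × Fin 2 :=
  (e + (chi (sh (-e) τ)).1, (chi (sh (-e) τ)).2)

/-- parity of a face of K1 -/
def par (σ : Finset (ZMod 4 × Fin 3)) : ZMod 4 :=
  if ∃ v ∈ σ, v.1 = 1 ∨ v.1 = 3 then 1 else 0

def parAdd (h e : ZMod 4) : ZMod 4 := if h + e = 1 ∨ h + e = 3 then 1 else 0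

theorem par_mono : ∀ σ ∈ K1, ∀ τ ∈ K1, σ ⊆ τ → par σ = par τ := by decide +kernel
theorem par_sh : ∀ h : ZMod 4, ∀ σ ∈ K1, par (sh h σ) = parAdd h (par σ) := by decide +kernel
theorem par_val (σ : Finset (ZMod 4 × Fin 3)) : par σ = 0 ∨ par σ = 1 := by
  unfold par; split_ifs <;> simp
theorem chiT_mono0 : ∀ σ ∈ K2, ∀ τ ∈ K2, σ ⊆ τ → R 0 (chiT 0 σ) (chiT 0 τ) := by decide +kernel
theorem chiT_mono1 : ∀ σ ∈ K2, ∀ τ ∈ K2, σ ⊆ τ → R 0 (chiT 1 σ) (chiT 1 τ) := by decide +kernel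
theorem chiT_sh0 : ∀ h : ZMod 4, ∀ τ ∈ K2,
    chiT (parAdd h 0) (sh h τ) = (h + (chiT 0 τ).1, (chiT 0 τ).2) := by decide +kernel
theorem chiT_sh1 : ∀ h : ZMod 4, ∀ τ ∈ K2,
    chiT (parAdd h 1) (sh h τ) = (h + (chiT 1 τ).1, (chiT 1 τ).2) := by decide +kernel

def dimLK1 : List (Finset (ZMod 4 × Fin 3) × (ZMod 4 × Fin 3)) :=
  [({(0, 0)}, (0, 0)),
   ({(0, 1)}, (0, 0)),
   ({(0, 2)}, (0, 0)),
   ({(1, 0)}, (1, 0)),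
   ({(1, 1)}, (1, 0)),
   ({(1, 2)}, (1, 0)),
   ({(2, 0)}, (2, 0)),
   ({(2, 1)}, (2, 0)),
   ({(2, 2)}, (2, 0)),
   ({(3, 0)}, (3, 0)),
   ({(3, 1)}, (3, 0)),
   ({(3, 2)}, (3, 0)),
   ({(0, 0), (0, 1)}, (0, 1)),
   ({(0, 0), (0, 2)}, (0, 1)),
   ({(0, 0), (2, 1)}, (0, 1)),
   ({(0, 0), (2, 2)}, (0, 1)),
   ({(0, 1), (0, 2)}, (0, 1)),
   ({(0, 1), (2, 0)}, (2, 1)),
   ({(0, 1), (2, 2)}, (0, 1)),
   ({(0, 2), (2, 0)}, (2, 1)),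
   ({(0, 2), (2, 1)}, (2, 1)),
   ({(1, 0), (1, 1)}, (1, 1)),
   ({(1, 0), (1, 2)}, (1, 1)),
   ({(1, 0), (3, 1)}, (1, 1)),
   ({(1, 0), (3, 2)}, (1, 1)),
   ({(1, 1), (1, 2)}, (1, 1)),
   ({(1, 1), (3, 0)}, (3, 1)),
   ({(1, 1), (3, 2)}, (1, 1)),
   ({(1, 2), (3, 0)}, (3, 1)),
   ({(1, 2), (3, 1)}, (3, 1)),
   ({(2, 0), (2, 1)}, (2, 1)),
   ({(2, 0), (2, 2)}, (2, 1)),
   ({(2, 1), (2, 2)}, (2, 1)),
   ({(3, 0), (3, 1)}, (3, 1)),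
   ({(3, 0), (3, 2)}, (3, 1)),
   ({(3, 1), (3, 2)}, (3, 1)),
   ({(0, 0), (0, 1), (0, 2)}, (0, 2)),
   ({(0, 0), (0, 1), (2, 2)}, (0, 2)),
   ({(0, 0), (0, 2), (2, 1)}, (0, 2)),
   ({(0, 0), (2, 1), (2, 2)}, (0, 2)),
   ({(0, 1), (0, 2), (2, 0)}, (2, 2)),
   ({(0, 1), (2, 0), (2, 2)}, (2, 2)),
   ({(0, 2), (2, 0), (2, 1)}, (2, 2)),
   ({(1, 0), (1, 1), (1, 2)}, (1, 2)),
   ({(1, 0), (1, 1), (3, 2)}, (1, 2)),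
   ({(1, 0), (1, 2), (3, 1)}, (1, 2)),
   ({(1, 0), (3, 1), (3, 2)}, (1, 2)),
   ({(1, 1), (1, 2), (3, 0)}, (3, 2)),
   ({(1, 1), (3, 0), (3, 2)}, (3, 2)),
   ({(1, 2), (3, 0), (3, 1)}, (3, 2)),
   ({(2, 0), (2, 1), (2, 2)}, (2, 2)),
   ({(3, 0), (3, 1), (3, 2)}, (3, 2))]

/-- labelling of faces by dimension, an equivariant map to the poset of height 2 -/
def dimK1 (τ : Finset (ZMod 4 × Fin 3)) : ZMod 4 × Fin 3 :=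
  ((dimLK1.find? (fun p => decide (p.1 = τ))).map Prod.snd).getD (0, 0)

theorem dimK1_mono : ∀ σ ∈ K1, ∀ τ ∈ K1, σ ⊆ τ → R 0 (dimK1 σ) (dimK1 τ) := by decide +kernel
theorem dimK1_sh : ∀ h : ZMod 4, ∀ τ ∈ K1,
    dimK1 (sh h τ) = (h + (dimK1 τ).1, (dimK1 τ).2) := by decide +kernel

def dimLK2 : List (Finset (ZMod 4 × Fin 2) × (ZMod 4 × Fin 3)) :=
  [({(0, 0)}, (0, 0)),
   ({(0, 1)}, (0, 0)),
   ({(1, 0)}, (1, 0)),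
   ({(1, 1)}, (1, 0)),
   ({(2, 0)}, (2, 0)),
   ({(2, 1)}, (2, 0)),
   ({(3, 0)}, (3, 0)),
   ({(3, 1)}, (3, 0)),
   ({(0, 0), (0, 1)}, (0, 1)),
   ({(0, 0), (1, 0)}, (0, 1)),
   ({(0, 0), (1, 1)}, (0, 1)),
   ({(0, 0), (2, 1)}, (0, 1)),
   ({(0, 0), (3, 0)}, (3, 1)),
   ({(0, 0), (3, 1)}, (0, 1)),
   ({(0, 1), (1, 0)}, (1, 1)),
   ({(0, 1), (2, 0)}, (2, 1)),
   ({(0, 1), (3, 0)}, (3, 1)),
   ({(1, 0), (1, 1)}, (1, 1)),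
   ({(1, 0), (2, 0)}, (1, 1)),
   ({(1, 0), (2, 1)}, (1, 1)),
   ({(1, 0), (3, 1)}, (1, 1)),
   ({(1, 1), (2, 0)}, (2, 1)),
   ({(1, 1), (3, 0)}, (3, 1)),
   ({(2, 0), (2, 1)}, (2, 1)),
   ({(2, 0), (3, 0)}, (2, 1)),
   ({(2, 0), (3, 1)}, (2, 1)),
   ({(2, 1), (3, 0)}, (3, 1)),
   ({(3, 0), (3, 1)}, (3, 1)),
   ({(0, 0), (0, 1), (1, 0)}, (0, 2)),
   ({(0, 0), (0, 1), (3, 0)}, (0, 2)),
   ({(0, 0), (1, 0), (1, 1)}, (1, 2)),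
   ({(0, 0), (1, 0), (2, 1)}, (0, 2)),
   ({(0, 0), (1, 1), (3, 0)}, (3, 2)),
   ({(0, 0), (3, 0), (3, 1)}, (3, 2)),
   ({(0, 1), (2, 0), (3, 0)}, (2, 2)),
   ({(1, 0), (1, 1), (2, 0)}, (1, 2)),
   ({(1, 0), (2, 0), (2, 1)}, (2, 2)),
   ({(1, 0), (2, 0), (3, 1)}, (1, 2)),
   ({(2, 0), (2, 1), (3, 0)}, (2, 2)),
   ({(2, 0), (3, 0), (3, 1)}, (3, 2))]

/-- labelling of faces by dimension, an equivariant map to the poset of height 2 -/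
def dimK2 (τ : Finset (ZMod 4 × Fin 2)) : ZMod 4 × Fin 3 :=
  ((dimLK2.find? (fun p => decide (p.1 = τ))).map Prod.snd).getD (0, 0)

theorem dimK2_mono : ∀ σ ∈ K2, ∀ τ ∈ K2, σ ⊆ τ → R 0 (dimK2 σ) (dimK2 τ) := by decide +kernel
theorem dimK2_sh : ∀ h : ZMod 4, ∀ τ ∈ K2,
    dimK2 (sh h τ) = (h + (dimK2 τ).1, (dimK2 τ).2) := by decide +kernel

end Pool.Agent.P.MP_c446d6_co
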