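import Mathlib

/-! Free simplicial complexes and the cross-index. -/

set_option autoImplicit false
open scoped Pointwise

namespace Pool.Agent.P.MP_c446d6_co.Conn

/-- K is the set of nonempty simplices of an abstract simplicial complex with vertex set V, on which
G acts simplicially (g • σ is the image of σ under g) and freely. -/
structure IsFreeComplex (G V : Type) [Group G] [MulAction G V] [DecidableEq V]
    (K : Set (Finset V)) : Prop where
  nonempty : ∀ σ ∈ K, σ.Nonempty
  vertex : ∀ v : V, {v} ∈ K
  down : ∀ σ ∈ K, ∀ τ : Finset V, τ.Nonempty → τ ⊆ σ → τ ∈ K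
  smul_mem : ∀ g : G, ∀ σ ∈ K, g • σ ∈ K
  free : ∀ g : G, ∀ σ ∈ K, g • σ = σ → g = 1

/-- The complex K is connected: the graph of its vertices and edges is connected. -/
def IsConnectedComplex {V : Type} [DecidableEq V] (K : Set (Finset V)) : Prop :=
  (SimpleGraph.fromRel fun a b : V => ({a, b} : Finset V) ∈ K).Connected

/-- There is a G-map from the G-poset P (a subset of A with the order and action of A) to
Q_n G = G × {0,...,n}, where (g,i) < (h,j) iff i < j and g • (h,i) = (g h, i). -/
def HasMapTo (G : Type) [Group G] {A : Type} [PartialOrder A] [MulAction G A] (P : Set A)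
    (n : ℕ) : Prop :=
  ∃ ψ : A → G × Fin (n + 1),
    (∀ p ∈ P, ∀ q ∈ P, p ≤ q → ψ p = ψ q ∨ (ψ p).2 < (ψ q).2) ∧
    (∀ g : G, ∀ p ∈ P, ψ (g • p) = (g * (ψ p).1, (ψ p).2))

/-- The cross-index of P equals n. -/
def XindEq (G : Type) [Group G] {A : Type} [PartialOrder A] [MulAction G A] (P : Set A)
    (n : ℕ) : Prop :=
  IsLeast {m : ℕ | HasMapTo G P m} n

end Pool.Agent.P.MP_c446d6_co.Conn
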