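import Pool.Agent.P.MP_c446d6_co.Top

/-! The two complexes and the lower bounds for their cross-index. -/

set_option autoImplicit false
open Finset
open scoped Pointwise

namespace Pool.Agent.P.MP_c446d6_co.Conn

attribute [local instance] actV

theorem smul_eq {J : Type} [DecidableEq J] (g : G4) (T : Finset (Z4 × J)) :
    g • T = sh g.toAdd T := rfl

/-- Two cross-polytope spheres joined by a four-cycle. -/
def K1 (m : ℕ) : Set (Finset (V m)) := {σ | σ.Nonempty ∧ AF σ ∧ (Par σ ∨ ∀ v ∈ σ, v.2 = 0)}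

theorem lower1 {d n : ℕ} (hn : n < 2 * d) : ¬ HasMapTo G4 (K1 (2 * d)) n := by
  classical
  let W := {w : Fin (2 * d + 1) → V (2 * d) // Good w ∧ ∀ i j, Ev (w i).1 (w j).1}
  refine noMap (W := W) (K1 (2 * d))
    (fun g w => ⟨fun i => tr g (w.1 i), w.2.1.tr g, fun i j => (Ev_add g _ _).2 (w.2.2 i j)⟩)
    (fun w => Subtype.ext (funext fun i => tr_zero _))
    (fun g h w => Subtype.ext (funext fun i => tr_tr _ _ _)) d (fun w k => S 0 w.1 k)
    (fun w k => (top (S 0 w.1 k)).1) (fun w k => ⟨S_ne _ _ _, w.2.1.af _ _, Or.inl ?_⟩)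
    (fun w k => S_mono _ _ _) (fun g w k => S_tr _ _ _ _)
    (fun g w k => by simp only [S_tr, top_sh (w.2.1.af _ _) (S_ne _ _ _)]; rfl) ?_ ?_ hn
  · intro u hu v hv
    obtain ⟨i, -, rfl⟩ := mem_S.1 hu
    obtain ⟨j, -, rfl⟩ := mem_S.1 hv
    exact w.2.2 i j
  · intro i hi
    rcases hi.lt_or_eq with hi | rfl
    · let π : Equiv.Perm (Fin (2 * d + 1)) := Equiv.swap ⟨i, by omega⟩ ⟨i + 1, by omega⟩
      refine ⟨fun w => ⟨w.1 ∘ π, w.2.1.perm π, fun a b => w.2.2 _ _⟩, fun w =>
        ⟨Subtype.ext (funext fun a => by simp [π]), fun e => ?_, fun j _ hj => ?_⟩⟩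
      · have := w.2.1.inj (congrFun (congrArg Subtype.val e) ⟨i, by omega⟩)
        simp [π] at this
      · have := S_perm (r := 0) (k := j) w.1 π (swap_le rfl hj)
        exact ⟨this, by simp only [this]⟩
    · refine ⟨fun w => ⟨fl w.1, w.2.1.fl, fun a b => (fl_ev _ _ _).2 (w.2.2 _ _)⟩, fun w =>
        ⟨Subtype.ext (fl_fl _), fun e => fl_ne _ (congrArg Subtype.val e), fun j _ hj => ?_⟩⟩
      have := S_fl (r := 0) (k := j) w.1 (by omega)
      exact ⟨this, by simp only [this]⟩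
  · let w0 : W := ⟨fun i => (2 * (i.val : Z4), i), fun i j h _ => h, fun i j =>
      (by decide : ∀ a b : Z4, Ev (2 * a) (2 * b)) _ _⟩
    have t0 : ∀ k ≤ 2 * d, (top (S 0 w0.1 k)).1 = 2 * (k : Z4) := fun k hk => by
      rw [top_eq (w0.2.1.af _ _) (v := w0.1 ⟨k, by omega⟩) ⟨mem_S.2 ⟨_, le_rfl, rfl⟩, ?_, ?_⟩]
      · intro h
        obtain ⟨j, -, e⟩ := mem_S.1 h
        exact (by decide : ∀ a b : Z4, 2 * a ≠ 1 + 2 * b) _ _ (congrArg Prod.fst e)
      · intro u hu
        obtain ⟨j, hj, rfl⟩ := mem_S.1 hu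
        exact hj
    rw [sum_eq_single_of_mem w0 (by simpa using t0 0 (by omega))]
    · rw [Om_congr t0]
      refine prod_eq_one fun j _ => ?_
      push_cast
      exact (by decide : ∀ a : Z4, cy (2 * (2 * a)) (2 * (2 * a + 1)) (2 * (2 * a + 2)) = 1) _
    intro w hw hne
    by_contra hO
    have hw0 : (top (S 0 w.1 0)).1 = 0 := by simpa using hw
    have df : ∀ k < 2 * d, (top (S 0 w.1 k)).1 ≠ (top (S 0 w.1 (k + 1))).1 :=
      fun k hk e => hO (Om_zero hk e)
    have t : ∀ i : Fin (2 * d + 1), top (S 0 w.1 i) = w.1 i := by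
      rintro ⟨_ | k, hk⟩
      · obtain ⟨j, hj, e⟩ := mem_S.1 (top_spec (w.2.1.af 0 0) (S_ne 0 0 w.1)).1
        obtain rfl : j = ⟨0, hk⟩ := Fin.ext (by simp only; omega)
        exact e.symm
      · exact top_new w.2.1 _ rfl (df k (by omega))
    have sm : StrictMono fun i => (w.1 i).2 := fun i j hij => by
      refine lt_of_le_of_ne ?_ fun e => hij.ne (w.2.1 i j e (w.2.2 i j))
      have := (top_spec (w.2.1.af 0 j) (S_ne 0 j w.1)).2.2 _ (mem_S.2 ⟨i, hij.le, rfl⟩)
      rwa [t] at this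
    have l : ∀ k ≤ 2 * d, (top (S 0 w.1 k)).1 = 2 * (k : Z4) := by
      intro k hk
      induction k with
      | zero => simpa using hw0
      | succ k ih =>
        have h1 := df k (by omega)
        have h2 := w.2.2 ⟨k, by omega⟩ ⟨k + 1, by omega⟩
        rw [← t, ← t] at h2
        simp only [ih (by omega)] at h1 h2
        push_cast
        exact (by decide : ∀ a b : Z4, 2 * a ≠ b → Ev (2 * a) b → b = 2 * (a + 1)) _ _ h1 h2
    refine hne (Subtype.ext (funext fun i => Prod.ext ?_ (congrFun sm.eq_id i)))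
    rw [← t, l _ (by omega)]

variable {d : ℕ}

abbrev V2 (d : ℕ) := Z4 × (Fin (d + 1) × Fin (d + 1))

def supp (T : Finset (V2 d)) : Finset (V d) :=
  T.image (fun p => (p.1, p.2.1)) ∪ T.image (fun p => (1 + p.1, p.2.2))

theorem mem_supp {T : Finset (V2 d)} {v : V d} :
    v ∈ supp T ↔ ∃ p ∈ T, (p.1, p.2.1) = v ∨ (1 + p.1, p.2.2) = v := by
  simp only [supp, mem_union, mem_image, and_or_left, exists_or]

theorem supp_mono {T T' : Finset (V2 d)} (h : T ⊆ T') : supp T ⊆ supp T' := fun _ hv => by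
  obtain ⟨p, a, b⟩ := mem_supp.1 hv
  exact mem_supp.2 ⟨p, h a, b⟩

theorem supp_sh (g : Z4) (T : Finset (V2 d)) : supp (sh g T) = sh g (supp T) := by
  simp only [supp, sh, image_union, image_image]
  congr 2
  funext p
  simp [tr, add_left_comm]

def pairs (A : Finset (V d)) : Finset (V2 d) :=
  univ.filter fun p => (p.1, p.2.1) ∈ A ∧ (1 + p.1, p.2.2) ∈ A

theorem pairs_sh (g : Z4) (A : Finset (V d)) : pairs (sh g A) = sh g (pairs A) := by
  ext p
  obtain ⟨q, rfl⟩ : ∃ q, tr g q = p := ⟨tr (-g) p, by rw [tr_tr, add_neg_cancel, tr_zero]⟩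
  rw [tr_mem_sh]
  simp only [pairs, mem_filter, mem_univ, true_and]
  refine and_congr (tr_mem_sh (v := (q.1, q.2.1))) ?_
  rw [← tr_mem_sh (g := g) (S := A)]
  simp [tr, add_left_comm]

/-- A simplicial model of the product of two cross-polytope spheres. -/
def K2 (d : ℕ) : Set (Finset (V2 d)) := {T | T.Nonempty ∧ AF (supp T)}

theorem pairs_mem {A : Finset (V d)} (h : AF A) {u v : V d} (hu : u ∈ A) (hv : v ∈ A)
    (hne : ¬ Ev u.1 v.1) : pairs A ∈ K2 d := by
  refine ⟨?_, h.mono fun z hz => ?_⟩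
  · rcases (by decide : ∀ a b : Z4, ¬ Ev a b → 1 + a = b ∨ 1 + b = a) _ _ hne with e | e
    · exact ⟨(u.1, u.2, v.2), by simp [pairs, e, hu, hv]⟩
    · exact ⟨(v.1, v.2, u.2), by simp [pairs, e, hu, hv]⟩
  · obtain ⟨p, hp, rfl | rfl⟩ := mem_supp.1 hz
    · exact (mem_filter.1 hp).2.1
    · exact (mem_filter.1 hp).2.2

theorem idx {w : Fin (2 * d + 1 + 1) → V d} (hd : 0 < d) (h : Good w)
    (F1 : ∀ i j : Fin (2 * d + 1 + 1), 2 ≤ j.val → i.val ≤ j.val → ((w i).2 : ℕ) ≤ (w j).2)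
    (i : Fin (2 * d + 1 + 1)) : ((w i).2 : ℕ) = i.val / 2 := by
  have F2 : ∀ i j l : Fin (2 * d + 1 + 1), i.val < j.val → j.val < l.val →
      ¬ (((w i).2 : ℕ) = (w j).2 ∧ ((w j).2 : ℕ) = (w l).2) := by
    rintro i j l a b ⟨e1, e2⟩
    rcases (by decide : ∀ a b c : Z4, Ev a b ∨ Ev b c ∨ Ev a c) (w i).1 (w j).1 (w l).1
      with e | e | e
    · have := congrArg Fin.val (h _ _ (Fin.ext e1) e); omega
    · have := congrArg Fin.val (h _ _ (Fin.ext e2) e); omega
    · have := congrArg Fin.val (h _ _ (Fin.ext (e1.trans e2)) e); omega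
  have U : ∀ t, ∀ j : Fin (2 * d + 1 + 1), 1 ≤ j.val → j.val + 2 * t ≤ 2 * d + 1 →
      ((w j).2 : ℕ) + t ≤ d := by
    intro t
    induction t with
    | zero => intro j _ _; have := (w j).2.2; omega
    | succ t ih =>
      intro j a b
      have h1 := ih ⟨j + 2, by omega⟩ (by simp) (by simp only; omega)
      have h2 := F1 j ⟨j + 1, by omega⟩ (by simp only; omega) (by simp)
      have h3 := F1 ⟨j + 1, by omega⟩ ⟨j + 2, by omega⟩ (by simp) (by simp)
      have h4 := F2 j ⟨j + 1, by omega⟩ ⟨j + 2, by omega⟩ (by simp) (by simp)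
      omega
  have L : ∀ t, ∀ j : Fin (2 * d + 1 + 1), 2 * t ≤ j.val → t ≤ ((w j).2 : ℕ) := by
    intro t
    induction t with
    | zero => intro j _; omega
    | succ t ih =>
      intro j a
      have := j.2
      have h1 := ih ⟨2 * t, by omega⟩ le_rfl
      have h2 := ih ⟨2 * t + 1, by omega⟩ (by simp)
      have h3 := F1 ⟨2 * t, by omega⟩ j (by omega) (by simp only; omega)
      have h4 := F1 ⟨2 * t + 1, by omega⟩ j (by omega) (by simp only; omega)
      have h5 := F2 ⟨2 * t, by omega⟩ ⟨2 * t + 1, by omega⟩ j (by simp) (by simp only; omega)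
      omega
  have := i.2
  have h1 := L (i.val / 2) i (by omega)
  by_cases h0 : i.val = 0
  · have h2 := U (d - 1) ⟨3, by omega⟩ (by simp) (by simp only; omega)
    have h3 := F1 i ⟨2, by omega⟩ (by simp) (by simp only; omega)
    have h4 := F1 ⟨2, by omega⟩ ⟨3, by omega⟩ (by simp) (by simp)
    have h5 := F2 i ⟨2, by omega⟩ ⟨3, by omega⟩ (by simp only; omega) (by simp)
    omega
  · have h2 := U (d - i.val / 2) i (by omega) (by omega)
    omega

theorem sw_inv {α : Type} [DecidableEq α] {a b c e : α} (h1 : Equiv.swap c e a = a)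
    (h2 : Equiv.swap c e b = b) (x : α) :
    Equiv.swap c e (Equiv.swap a b (Equiv.swap c e (Equiv.swap a b x))) = x := by
  have := Equiv.mul_swap_eq_swap_mul (Equiv.swap c e) a b
  rw [h1, h2] at this
  have h3 : ∀ y, Equiv.swap c e (Equiv.swap a b y) = Equiv.swap a b (Equiv.swap c e y) :=
    fun y => congrArg (fun f : Equiv.Perm α => f y) this
  rw [h3, Equiv.swap_apply_self, Equiv.swap_apply_self]

theorem lower2 {n : ℕ} (hn : n < 2 * d) : ¬ HasMapTo G4 (K2 d) n := by
  classical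
  have hd : 0 < d := by omega
  let p0 : Fin (2 * d + 1 + 1) := ⟨0, by omega⟩
  let p1 : Fin (2 * d + 1 + 1) := ⟨1, by omega⟩
  let p2 : Fin (2 * d + 1 + 1) := ⟨2, by omega⟩
  let p3 : Fin (2 * d + 1 + 1) := ⟨3, by omega⟩
  let W := {w : Fin (2 * d + 1 + 1) → V d //
    Good w ∧ ¬ Ev (w p0).1 (w p1).1 ∧ Ev (w p1).1 (w p2).1}
  refine noMap (W := W) _
    (fun g w => ⟨fun i => tr g (w.1 i), w.2.1.tr g, fun e => w.2.2.1 ((Ev_add g _ _).1 e),
      (Ev_add g _ _).2 w.2.2.2⟩)
    (fun w => Subtype.ext (funext fun i => tr_zero _))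
    (fun g h w => Subtype.ext (funext fun i => tr_tr _ _ _)) d (fun w k => pairs (S 1 w.1 k))
    (fun w k => (top (S 1 w.1 k)).1)
    (fun w k => pairs_mem (w.2.1.af _ _) (mem_S.2 ⟨p0, by simp [p0], rfl⟩)
      (mem_S.2 ⟨p1, by simp [p1], rfl⟩) w.2.2.1)
    (fun w k p hp => mem_filter.2 ⟨mem_univ _, S_mono _ _ _ (mem_filter.1 hp).2.1,
      S_mono _ _ _ (mem_filter.1 hp).2.2⟩)
    (fun g w k => by simp only [S_tr, pairs_sh]; rfl)
    (fun g w k => by simp only [S_tr, top_sh (w.2.1.af _ _) (S_ne _ _ _)]; rfl) ?_ ?_ hn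
  · intro i hi
    have gen : ∀ (π : W → Equiv.Perm (Fin (2 * d + 1 + 1)))
        (hE : ∀ w : W, ¬ Ev (w.1 (π w p0)).1 (w.1 (π w p1)).1 ∧
          Ev (w.1 (π w p1)).1 (w.1 (π w p2)).1),
        (∀ w : W, π ⟨w.1 ∘ π w, w.2.1.perm _, hE w⟩ = π w ∧ (∀ a, π w (π w a) = a) ∧
          π w ⟨i + 1, by omega⟩ ≠ ⟨i + 1, by omega⟩ ∧
          ∀ j ≠ i, ∀ a, (π w a).val ≤ j + 1 ↔ a.val ≤ j + 1) →
        ∃ φ : W → W, ∀ w, φ (φ w) = w ∧ φ w ≠ w ∧ ∀ j ≤ 2 * d, j ≠ i →
          pairs (S 1 (φ w).1 j) = pairs (S 1 w.1 j) ∧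
          (top (S 1 (φ w).1 j)).1 = (top (S 1 w.1 j)).1 := by
      intro π hE h
      refine ⟨fun w => ⟨w.1 ∘ π w, w.2.1.perm _, hE w⟩, fun w =>
        ⟨Subtype.ext (funext fun a => ?_), fun e => ?_, fun j _ hj => ?_⟩⟩
      · simp only [(h w).1, Function.comp, (h w).2.1]
      · exact (h w).2.2.1 (w.2.1.inj (congrFun (congrArg Subtype.val e) _))
      · simp only [S_perm w.1 (π w) ((h w).2.2.2 j hj), and_self]
    rcases hi.lt_or_eq with hi | rfl
    · rcases i with _ | _ | i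
      · refine gen (fun _ => Equiv.swap p1 p2) (fun w => ?_) fun w =>
          ⟨rfl, by simp, by simp [p1, p2], fun j hj => swap_le rfl (by simpa [p1] using hj)⟩
        rw [Equiv.swap_apply_of_ne_of_ne (by simp [p0, p1]) (by simp [p0, p2]),
          Equiv.swap_apply_left, Equiv.swap_apply_right]
        exact (by decide : ∀ a b c : Z4, ¬ Ev a b ∧ Ev b c → ¬ Ev a c ∧ Ev c b) _ _ _ w.2.2
      · have s0 : Equiv.swap p2 p3 p0 = p0 :=
          Equiv.swap_apply_of_ne_of_ne (by simp [p0, p2]) (by simp [p0, p3])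
        have s1 : Equiv.swap p2 p3 p1 = p1 :=
          Equiv.swap_apply_of_ne_of_ne (by simp [p1, p2]) (by simp [p1, p3])
        have s2 : Equiv.swap p0 p1 p2 = p2 :=
          Equiv.swap_apply_of_ne_of_ne (by simp [p0, p2]) (by simp [p1, p2])
        have s3 : Equiv.swap p0 p1 p3 = p3 :=
          Equiv.swap_apply_of_ne_of_ne (by simp [p0, p3]) (by simp [p1, p3])
        have sy : ∀ a b : Z4, Ev a b ↔ Ev b a := by decide
        refine gen (fun w => if Ev (w.1 p2).1 (w.1 p3).1 then Equiv.swap p2 p3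
          else Equiv.swap p2 p3 * Equiv.swap p0 p1) (fun w => ?_) fun w => ?_
        · split_ifs with e
          · simp only [s0, s1, Equiv.swap_apply_left]
            exact ⟨w.2.2.1, Ev_tr ((sy _ _).1 w.2.2.2) e⟩
          · simp only [Equiv.Perm.mul_apply, s0, s1, s2, Equiv.swap_apply_left,
              Equiv.swap_apply_right]
            exact (by decide : ∀ a b c f : Z4, ¬ Ev a b ∧ Ev b c → ¬ Ev c f →
              ¬ Ev b a ∧ Ev a f) _ _ _ _ w.2.2 e
        · by_cases e : Ev (w.1 p2).1 (w.1 p3).1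
          · simp only [if_pos e, Function.comp, Equiv.swap_apply_left, Equiv.swap_apply_right,
              if_pos ((sy _ _).1 e), true_and]
            exact ⟨by simp, by simp [p2, p3], fun j hj => swap_le rfl (by simpa [p2] using hj)⟩
          · simp only [if_neg e, Function.comp, Equiv.Perm.mul_apply, s2, s3,
              Equiv.swap_apply_left, Equiv.swap_apply_right, if_neg (mt (sy _ _).1 e), true_and]
            refine ⟨fun a => ?_, ?_, fun j hj a => ?_⟩
            · exact sw_inv s0 s1 a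
            · show Equiv.swap p2 p3 (Equiv.swap p0 p1 p2) ≠ p2
              rw [s2]; simp [p2, p3]
            · exact (swap_le rfl (by simpa [p2] using hj) _).trans
                (swap_le rfl (by simp [p0]) _)
      · refine gen (fun _ => Equiv.swap ⟨i + 3, by omega⟩ ⟨i + 4, by omega⟩) (fun w => ?_)
          fun w => ⟨rfl, by simp, by simp, fun j hj => swap_le rfl (by simp only; omega)⟩
        rw [Equiv.swap_apply_of_ne_of_ne (by simp [p0]) (by simp [p0]),
          Equiv.swap_apply_of_ne_of_ne (by simp [p1]) (by simp [p1]),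
          Equiv.swap_apply_of_ne_of_ne (by simp [p2]) (by simp [p2])]
        exact w.2.2
    · refine ⟨fun w => ⟨fl w.1, w.2.1.fl, by simpa only [fl_ev] using w.2.2⟩, fun w =>
        ⟨Subtype.ext (fl_fl _), fun e => fl_ne _ (congrArg Subtype.val e), fun j _ hj => ?_⟩⟩
      simp only [S_fl (r := 1) (k := j) w.1 (by omega), and_self]
  · let f : ℕ → Z4 := fun i => if i = 1 ∨ (i ≠ 0 ∧ i % 2 = 0) then 3 else 0
    have g0 : Good fun i : Fin (2 * d + 1 + 1) =>
        ((f i.val, ⟨i.val / 2, by omega⟩) : V d) := by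
      intro i j a b
      have a' : i.val / 2 = j.val / 2 := congrArg Fin.val a
      simp only [f] at b
      split_ifs at b <;> first | exact Fin.ext (by omega) | exact absurd b (by decide)
    let w0 : W := ⟨_, g0, by simp only [f, p0, p1]; decide, by simp only [f, p1, p2]; decide⟩
    have t0 : ∀ k ≤ 2 * d, (top (S 1 w0.1 k)).1 = if k % 2 = 0 then 0 else 3 := fun k hk => by
      rw [top_eq (w0.2.1.af _ _) (v := (if k % 2 = 0 then 0 else 3, ⟨(k + 1) / 2, by omega⟩))
        ⟨mem_S.2 ⟨⟨if k = 0 then 0 else k + 1, by split_ifs <;> omega⟩,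
          by simp only; split_ifs <;> omega, ?_⟩, ?_, ?_⟩]
      · simp only [w0, f, Prod.mk.injEq, Fin.mk.injEq]
        by_cases k0 : k = 0
        · subst k0; simp
        · simp only [if_neg k0, and_true]
          split_ifs <;> first | omega | rfl
      · intro h
        obtain ⟨j, hj, e⟩ := mem_S.1 h
        simp only [w0, f, tr, Prod.mk.injEq, Fin.mk.injEq] at e
        obtain ⟨e1, e2⟩ := e
        split_ifs at e1 <;> first | omega | exact absurd e1 (by decide)
      · intro u hu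
        obtain ⟨j, hj, rfl⟩ := mem_S.1 hu
        show j.val / 2 ≤ (k + 1) / 2
        omega
    rw [sum_eq_single_of_mem w0 (by simpa using t0 0 (by omega))]
    · rw [Om_congr t0]
      refine prod_eq_one fun j _ => ?_
      beta_reduce
      rw [if_pos (by omega), if_neg (by omega), if_pos (by omega)]
      decide
    intro w hw hne
    by_contra hO
    have hw0 : (top (S 1 w.1 0)).1 = 0 := by simpa using hw
    have T := fun k => top_spec (w.2.1.af 1 k) (S_ne 1 k w.1)
    have t : ∀ k (hk : k < 2 * d), top (S 1 w.1 (k + 1)) = w.1 ⟨k + 2, by omega⟩ :=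
      fun k hk => top_new w.2.1 _ rfl fun e => hO (Om_zero hk e)
    have ix := idx hd w.2.1 fun i j a b => by
      obtain ⟨j, hj⟩ := j
      obtain ⟨k, rfl⟩ : ∃ k, j = k + 2 := ⟨j - 2, by simp only at a; omega⟩
      have := (T (k + 1)).2.2 _ (mem_S.2 ⟨i, b, rfl⟩)
      rwa [t k (by omega)] at this
    have st : ∀ j (hj : j < d), (top (S 1 w.1 (2 * j))).1 = 0 →
        (w.1 ⟨2 * j + 2, by omega⟩).1 = 3 ∧ (w.1 ⟨2 * j + 1 + 2, by omega⟩).1 = 0 := by
      intro j hj h
      have e : (w.1 ⟨2 * j + 2, by omega⟩).2 = (w.1 ⟨2 * j + 1 + 2, by omega⟩).2 :=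
        Fin.ext (by rw [ix, ix]; simp only; omega)
      refine (by decide : ∀ x y : Z4, cy 0 x y ≠ 0 → ¬ Ev x y → x ≠ 1 + y → x = 3 ∧ y = 0)
        _ _ (fun c => hO (prod_eq_zero (mem_range.2 hj) ?_))
        (fun c => by simpa using w.2.1 _ _ e c) fun c => (T (2 * j + 1 + 1)).2.1 ?_
      · simp only [h, t (2 * j) (by omega), t (2 * j + 1) (by omega), c]
      · rw [t _ (by omega)]
        exact mem_S.2 ⟨⟨2 * j + 2, by omega⟩, by simp, Prod.ext c e⟩
    have l : ∀ j ≤ d, (top (S 1 w.1 (2 * j))).1 = 0 := by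
      intro j hj
      induction j with
      | zero => exact hw0
      | succ j ih =>
        rw [show 2 * (j + 1) = 2 * j + 1 + 1 by ring, t _ (by omega)]
        exact (st j (by omega) (ih (by omega))).2
    have e2 : (w.1 p2).1 = 3 := (st 0 hd hw0).1
    have e01 : (w.1 p0).1 = 0 ∧ (w.1 p1).1 = 3 := by
      obtain ⟨j, hj, e⟩ := mem_S.1 (T 0).1
      have h1 := w.2.2.2
      rw [e2] at h1
      rw [← e] at hw0
      obtain rfl | rfl : j = p0 ∨ j = p1 := by
        simp only [p0, p1, Fin.ext_iff]; omega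
      · refine ⟨hw0, (by decide : ∀ x : Z4, Ev x 3 → x ≠ 1 + 0 → x = 3) _ h1 fun c =>
          (T 0).2.1 (mem_S.2 ⟨p1, by simp [p1], ?_⟩)⟩
        rw [← e]
        exact Prod.ext (by rw [c, ← hw0]; rfl) (Fin.ext (by
          show ((w.1 p1).2 : ℕ) = (w.1 p0).2
          rw [ix, ix]; simp [p0, p1]))
      · rw [hw0] at h1; exact absurd h1 (by decide)
    refine hne (Subtype.ext (funext fun i => Prod.ext ?_ (Fin.ext (ix i))))
    obtain ⟨i, hi⟩ := i
    show _ = f i
    rcases i with _ | _ | i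
    · exact e01.1
    · exact e01.2
    rcases Nat.even_or_odd' i with ⟨j, rfl | rfl⟩
    · simp only [f]; rw [if_pos (by omega)]; exact (st j (by omega) (l j (by omega))).1
    · simp only [f]; rw [if_neg (by omega)]; exact (st j (by omega) (l j (by omega))).2

end Pool.Agent.P.MP_c446d6_co.Conn
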