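import Mathlib

/-! A parity lemma for equivariant labellings of chains by the cyclic group of order four. -/

set_option autoImplicit false
open Finset

namespace Pool.Agent.P.MP_c446d6_co.Conn

abbrev Z4 := ZMod 4

/-- The carry cocycle. -/
def cy (a b c : Z4) : ZMod 2 := if 4 ≤ (b - a).val + (c - b).val then 1 else 0

theorem cy_coc : ∀ a b c e : Z4, cy b c e + cy a c e + cy a b e = cy a b c := by decide
theorem cy_add : ∀ g a b c : Z4, cy (g + a) (g + b) (g + c) = cy a b c := by decide
theorem cy_l : ∀ a c : Z4, cy a a c = 0 := by decide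
theorem cy_r : ∀ a c : Z4, cy a c c = 0 := by decide

/-- The `d`-th cup power of the carry cocycle. -/
def Om (d : ℕ) (x : ℕ → Z4) : ZMod 2 :=
  ∏ j ∈ range d, cy (x (2 * j)) (x (2 * j + 1)) (x (2 * j + 2))

def drop (i : ℕ) (x : ℕ → Z4) : ℕ → Z4 := fun k => if k < i then x k else x (k + 1)

theorem Om_congr {d : ℕ} {x y : ℕ → Z4} (h : ∀ k ≤ 2 * d, x k = y k) : Om d x = Om d y :=
  prod_congr rfl fun j hj => by
    have := mem_range.1 hj
    rw [h _ (by omega), h _ (by omega), h _ (by omega)]

theorem Om_add (d : ℕ) (g : Z4) (x : ℕ → Z4) : Om d (fun k => g + x k) = Om d x :=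
  prod_congr rfl fun _ _ => cy_add _ _ _ _

theorem Om_succ (d : ℕ) (x : ℕ → Z4) :
    Om (d + 1) x = Om d x * cy (x (2 * d)) (x (2 * d + 1)) (x (2 * d + 2)) :=
  prod_range_succ _ _

theorem Om_zero {d k : ℕ} {x : ℕ → Z4} (hk : k < 2 * d) (h : x k = x (k + 1)) : Om d x = 0 := by
  refine prod_eq_zero (i := k / 2) (mem_range.2 (by omega)) ?_
  rcases Nat.even_or_odd' k with ⟨j, rfl | rfl⟩
  · rw [show 2 * j / 2 = j by omega, h, cy_l]
  · rw [show (2 * j + 1) / 2 = j by omega, h, cy_r]

theorem Om_drop {d i : ℕ} (hi : 2 * d < i) (x : ℕ → Z4) : Om d (drop i x) = Om d x :=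
  Om_congr fun k hk => if_pos (by omega)

theorem Om_coc (d : ℕ) (x : ℕ → Z4) : ∑ i ∈ range (2 * d + 1), Om d (drop i x) = Om d x := by
  induction d with
  | zero => simp [Om]
  | succ d ih =>
    have h1 : ∑ i ∈ range (2 * d + 1), Om (d + 1) (drop i x) =
        Om d x * cy (x (2 * d + 1)) (x (2 * d + 2)) (x (2 * d + 3)) := by
      rw [← ih, sum_mul]
      refine sum_congr rfl fun i hi => ?_
      have := mem_range.1 hi
      rw [Om_succ]
      simp only [drop]
      rw [if_neg (by omega), if_neg (by omega), if_neg (by omega)]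
    rw [show 2 * (d + 1) + 1 = 2 * d + 1 + 1 + 1 by ring, sum_range_succ, sum_range_succ, h1,
      Om_succ, Om_succ, Om_succ, Om_drop (by omega), Om_drop (by omega), ← mul_add, ← mul_add,
      ← cy_coc (x (2 * d)) _ (x (2 * d + 2)) (x (2 * d + 3))]
    simp only [drop]
    rw [if_pos (by omega), if_neg (by omega), if_neg (by omega), if_pos (by omega),
      if_pos (by omega), if_neg (by omega)]

theorem Om_coc' (d : ℕ) (x : ℕ → Z4) : ∑ i ∈ range (2 * d + 2), Om d (drop i x) = 0 := by
  rw [sum_range_succ, Om_coc, Om_drop (by omega), CharTwo.add_self_eq_zero]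

section
variable {W : Type} [Fintype W] (act : Z4 → W → W) (h0 : ∀ w, act 0 w = w)
  (ha : ∀ g h w, act g (act h w) = act (g + h) w)
include h0 ha

theorem reps (l l' : W → Z4) (hl : ∀ g w, l (act g w) = g + l w)
    (hl' : ∀ g w, l' (act g w) = g + l' w) (f : W → ZMod 2) (hf : ∀ g w, f (act g w) = f w) :
    ∑ w ∈ univ.filter (fun w => l w = 0), f w = ∑ w ∈ univ.filter (fun w => l' w = 0), f w := by
  refine sum_nbij' (fun w => act (-l' w) w) (fun w => act (-l w) w) ?_ ?_ ?_ ?_ ?_
  · intro w _; simp [hl']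
  · intro w _; simp [hl]
  · intro w hw
    have : l w = 0 := by simpa using hw
    simp [ha, hl, this, h0]
  · intro w hw
    have : l' w = 0 := by simpa using hw
    simp [ha, hl', this, h0]
  · intro w _; rw [hf]

theorem parity (d : ℕ) (L L' : W → ℕ → Z4) (hL : ∀ g w k, L (act g w) k = g + L w k)
    (hL' : ∀ g w k, L' (act g w) k = g + L' w k)
    (hφ : ∀ i ≤ 2 * d, ∃ φ : W → W, ∀ w, φ (φ w) = w ∧ φ w ≠ w ∧
      ∀ j ≤ 2 * d, j ≠ i → L (φ w) j = L w j ∧ L' (φ w) j = L' w j) :
    ∑ w ∈ univ.filter (fun w => L w 0 = 0), Om d (L w) =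
      ∑ w ∈ univ.filter (fun w => L' w 0 = 0), Om d (L' w) := by
  let M : ℕ → W → ℕ → Z4 := fun t w k => if k < t then L w k else L' w k
  have hM : ∀ t g w, Om d (M t (act g w)) = Om d (M t w) := fun t g w => by
    rw [← Om_add d g (M t w)]
    refine Om_congr fun k _ => ?_
    simp only [M]; split_ifs <;> simp [hL, hL']
  have key : ∀ t ≤ 2 * d + 1, ∑ w ∈ univ.filter (fun w => L w 0 = 0), Om d (M t w) =
      ∑ w ∈ univ.filter (fun w => L w 0 = 0), Om d (M 0 w) := by
    intro t ht
    induction t with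
    | zero => rfl
    | succ t ih =>
      rw [← ih (by omega),
        reps act h0 ha (fun w => L w 0) (fun w => L w t) (hL · · 0) (hL · · t) _ (hM (t + 1)),
        reps act h0 ha (fun w => L w 0) (fun w => L w t) (hL · · 0) (hL · · t) _ (hM t)]
      let X : W → ℕ → Z4 := fun w k => if k ≤ t then L w k else L' w (k - 1)
      have e1 : ∀ w, M t w = drop t (X w) := fun w => funext fun k => by
        simp only [M, X, drop]
        split_ifs <;> first | rfl | omega
      have e2 : ∀ w, M (t + 1) w = drop (t + 1) (X w) := fun w => funext fun k => by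
        simp only [M, X, drop]
        split_ifs <;> first | rfl | omega
      have z : ∀ j ∈ range (2 * d + 2), j ≠ t → j ≠ t + 1 →
          ∑ w ∈ univ.filter (fun w => L w t = 0), Om d (drop j (X w)) = 0 := by
        intro j hj j1 j2
        have hj' := mem_range.1 hj
        obtain ⟨φ, hφ⟩ := hφ (if j < t then j else j - 1) (by split_ifs <;> omega)
        refine sum_involution (fun w _ => φ w) (fun w _ => ?_) (fun w _ _ => (hφ w).2.1)
          (fun w hw => ?_) fun w _ => (hφ w).1
        · rw [CharTwo.add_eq_zero]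
          refine Om_congr fun k hk => ?_
          simp only [X, drop]
          have := (hφ w).2.2
          split_ifs at this ⊢ <;>
            first
              | exact ((this _ (by omega) (by omega)).1).symm
              | exact ((this _ (by omega) (by omega)).2).symm
        · simp only [mem_filter, mem_univ, true_and] at hw ⊢
          rw [((hφ w).2.2 t (by omega) (by split_ifs <;> omega)).1, hw]
      have tot : ∑ j ∈ range (2 * d + 2),
          ∑ w ∈ univ.filter (fun w => L w t = 0), Om d (drop j (X w)) = 0 := by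
        rw [sum_comm]; exact sum_eq_zero fun w _ => Om_coc' d _
      rw [sum_eq_add_of_mem t (t + 1) (mem_range.2 (by omega)) (mem_range.2 (by omega))
        (by omega) fun j hj h => z j hj h.1 h.2, CharTwo.add_eq_zero] at tot
      simp only [e1, e2, tot]
  have k1 := (key _ le_rfl).trans
    (reps act h0 ha _ (fun w => L' w 0) (hL · · 0) (hL' · · 0) _ (hM 0))
  refine Eq.trans (sum_congr rfl fun w _ => Om_congr fun k hk => ?_) k1
  exact (if_pos (by omega)).symm

end

end Pool.Agent.P.MP_c446d6_co.Conn
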