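import Pool.Agent.P.MP_c446d6_co.Defs
import Pool.Agent.P.MP_c446d6_co.Parity

/-! Antipode-free sets, their top element, and words. -/

set_option autoImplicit false
open Finset

namespace Pool.Agent.P.MP_c446d6_co.Conn

abbrev G4 := Multiplicative Z4

theorem noMap {A : Type} [PartialOrder A] [MulAction G4 A] (P : Set A) {W : Type} [Fintype W]
    (act : Z4 → W → W) (h0 : ∀ w, act 0 w = w) (ha : ∀ g h w, act g (act h w) = act (g + h) w)
    (d : ℕ) (c : W → ℕ → A) (L' : W → ℕ → Z4) (hP : ∀ w k, c w k ∈ P)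
    (hm : ∀ w k, c w k ≤ c w (k + 1))
    (hc : ∀ g w k, c (act g w) k = Multiplicative.ofAdd g • c w k)
    (hL' : ∀ g w k, L' (act g w) k = g + L' w k)
    (hφ : ∀ i ≤ 2 * d, ∃ φ : W → W, ∀ w, φ (φ w) = w ∧ φ w ≠ w ∧
      ∀ j ≤ 2 * d, j ≠ i → c (φ w) j = c w j ∧ L' (φ w) j = L' w j)
    (h1 : ∑ w ∈ univ.filter (fun w => L' w 0 = 0), Om d (L' w) = 1) {n : ℕ} (hn : n < 2 * d) :
    ¬ HasMapTo G4 P n := by
  rintro ⟨ψ, p1, p2⟩
  have := parity act h0 ha d (fun w k => (ψ (c w k)).1.toAdd) L'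
    (fun g w k => by rw [hc, p2 _ _ (hP w k)]; rfl) hL' fun i hi => by
      obtain ⟨φ, h⟩ := hφ i hi
      exact ⟨φ, fun w => ⟨(h w).1, (h w).2.1, fun j a b =>
        ⟨by rw [((h w).2.2 j a b).1], ((h w).2.2 j a b).2⟩⟩⟩
  rw [h1, sum_eq_zero] at this
  · exact zero_ne_one this
  intro w _
  by_contra hne
  have : ∀ k ≤ 2 * d, k ≤ ((ψ (c w k)).2 : ℕ) := by
    intro k hk
    induction k with
    | zero => omega
    | succ k ih =>
      rcases p1 _ (hP w k) _ (hP w (k + 1)) (hm w k) with h | h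
      · exact absurd (Om_zero (k := k) (by omega) (by simp only [h])) hne
      · have := ih (by omega)
        have : ((ψ (c w k)).2 : ℕ) < (ψ (c w (k + 1))).2 := h
        omega
  have := this _ le_rfl
  have := (ψ (c w (2 * d))).2.2
  omega

def tr {J : Type} (g : Z4) (v : Z4 × J) : Z4 × J := (g + v.1, v.2)

theorem tr_tr {J : Type} (g h : Z4) (v : Z4 × J) : tr g (tr h v) = tr (g + h) v := by
  simp [tr, add_assoc]

theorem tr_zero {J : Type} (v : Z4 × J) : tr 0 v = v := by simp [tr]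

theorem tr_comm {J : Type} (g h : Z4) (v : Z4 × J) : tr g (tr h v) = tr h (tr g v) := by
  rw [tr_tr, tr_tr, add_comm]

theorem tr_inj {J : Type} (g : Z4) : Function.Injective (tr g : Z4 × J → Z4 × J) :=
  fun u v h => by rw [← tr_zero u, ← tr_zero v, ← neg_add_cancel g, ← tr_tr, ← tr_tr, h]

@[reducible] def actV (J : Type) : MulAction G4 (Z4 × J) where
  smul g v := tr g.toAdd v
  one_smul v := tr_zero v
  mul_smul a b v := (tr_tr a.toAdd b.toAdd v).symm

def sh {J : Type} [DecidableEq J] (g : Z4) (S : Finset (Z4 × J)) : Finset (Z4 × J) :=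
  S.image (tr g)

theorem tr_mem_sh {J : Type} [DecidableEq J] {g : Z4} {S : Finset (Z4 × J)} {v : Z4 × J} :
    tr g v ∈ sh g S ↔ v ∈ S := (tr_inj g).mem_finset_image

theorem forall_sh {J : Type} [DecidableEq J] {g : Z4} {S : Finset (Z4 × J)} {p : Z4 × J → Prop} :
    (∀ v ∈ sh g S, p v) ↔ ∀ v ∈ S, p (tr g v) := forall_mem_image

theorem four {J : Type} {u v : Z4 × J} (h : u.2 = v.2) :
    u = v ∨ u = tr 1 v ∨ u = tr 2 v ∨ u = tr 3 v := by
  obtain ⟨a, i⟩ := u
  obtain ⟨b, j⟩ := v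
  obtain rfl : i = j := h
  simp only [tr, Prod.mk.injEq, and_true]
  revert a b; decide

/-- Same parity. -/
def Ev (a b : Z4) : Prop := a = b ∨ a = 2 + b

instance (a b : Z4) : Decidable (Ev a b) := by unfold Ev; infer_instance

theorem Ev_refl : ∀ a, Ev a a := by decide
theorem Ev_tr : ∀ {a b c}, Ev a b → Ev a c → Ev b c := by decide
theorem Ev_add : ∀ g a b, Ev (g + a) (g + b) ↔ Ev a b := by decide

variable {m : ℕ}

abbrev V (m : ℕ) := Z4 × Fin (m + 1)

def AF (S : Finset (V m)) : Prop := ∀ v ∈ S, tr 2 v ∉ S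
def Par (S : Finset (V m)) : Prop := ∀ u ∈ S, ∀ v ∈ S, Ev u.1 v.1
def Top (S : Finset (V m)) (v : V m) : Prop := v ∈ S ∧ tr 1 v ∉ S ∧ ∀ u ∈ S, u.2 ≤ v.2

theorem AF.mono {S T : Finset (V m)} (h : AF T) (hs : S ⊆ T) : AF S :=
  fun v hv h2 => h v (hs hv) (hs h2)

theorem Par.mono {S T : Finset (V m)} (h : Par T) (hs : S ⊆ T) : Par S :=
  fun u hu v hv => h u (hs hu) v (hs hv)

theorem AF.sh {S : Finset (V m)} (h : AF S) (g : Z4) : AF (sh g S) :=
  forall_sh.2 fun v hv h2 => h v hv (tr_mem_sh.1 (tr_comm 2 g v ▸ h2))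

theorem Par_sh {S : Finset (V m)} (g : Z4) : Par (sh g S) ↔ Par S := by
  simp only [Par, forall_sh, tr, Ev_add]

theorem AF.free {S : Finset (V m)} (h : AF S) (hn : S.Nonempty) {g : Z4} (hg : Conn.sh g S = S) :
    g = 0 := by
  obtain ⟨v, hv⟩ := hn
  have h1 : ∀ v ∈ S, tr g v ∈ S := fun v hv => hg ▸ tr_mem_sh.2 hv
  by_contra hne
  have : g = 2 ∨ g + g = 2 := (by decide : ∀ g : Z4, ¬ g = 0 → g = 2 ∨ g + g = 2) g hne
  rcases this with e | e
  · exact h v hv (e ▸ h1 v hv)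
  · exact h v hv (by rw [← e, ← tr_tr]; exact h1 _ (h1 v hv))

theorem Top.unique {S : Finset (V m)} (h : AF S) {u v : V m} (hu : Top S u) (hv : Top S v) :
    u = v := by
  rcases four (le_antisymm (hv.2.2 u hu.1) (hu.2.2 v hv.1)) with e | e | e | e
  · exact e
  · exact absurd (e ▸ hu.1) hv.2.1
  · exact absurd (e ▸ hu.1) (h v hv.1)
  · refine absurd ?_ hu.2.1
    rw [e, tr_tr, show (1 + 3 : Z4) = 0 by decide, tr_zero]; exact hv.1

noncomputable def top (S : Finset (V m)) : V m := Classical.epsilon (Top S)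

theorem top_eq {S : Finset (V m)} (h : AF S) {v : V m} (hv : Top S v) : top S = v :=
  (Classical.epsilon_spec ⟨v, hv⟩ : Top S (top S)).unique h hv

theorem top_spec {S : Finset (V m)} (h : AF S) (hn : S.Nonempty) : Top S (top S) := by
  refine Classical.epsilon_spec (p := Top S) ?_
  obtain ⟨u, hu, hm⟩ := exists_max_image S (fun v => v.2) hn
  by_cases h1 : tr 1 u ∈ S
  · exact ⟨tr 1 u, h1, by rw [tr_tr]; exact h u hu, hm⟩
  · exact ⟨u, hu, h1, hm⟩

theorem top_sh {S : Finset (V m)} (h : AF S) (hn : S.Nonempty) (g : Z4) :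
    top (sh g S) = tr g (top S) := by
  obtain ⟨a, b, c⟩ := top_spec h hn
  exact top_eq (h.sh g) ⟨tr_mem_sh.2 a, fun e => b (tr_mem_sh.1 (tr_comm 1 g _ ▸ e)),
    forall_sh.2 c⟩

theorem top_sub {S T : Finset (V m)} (h : AF T) (hn : T.Nonempty) (hs : S ⊆ T)
    (ht : top T ∈ S) : top S = top T :=
  top_eq (h.mono hs) ⟨ht, fun e => (top_spec h hn).2.1 (hs e),
    fun u hu => (top_spec h hn).2.2 u (hs hu)⟩

noncomputable def rk (S : Finset (V m)) : ℕ := 2 * (top S).2 + if tr 3 (top S) ∈ S then 1 else 0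

theorem rk_le (S : Finset (V m)) : rk S ≤ 2 * (top S).2 + 1 := by
  unfold rk; split_ifs <;> omega

theorem rk_sh {S : Finset (V m)} (h : AF S) (hn : S.Nonempty) (g : Z4) : rk (sh g S) = rk S := by
  simp only [rk, top_sh h hn, tr_comm 3 g, tr_mem_sh]; rfl

theorem rk_mono {S T : Finset (V m)} (h : AF T) (hn : S.Nonempty) (hs : S ⊆ T) :
    (top S = top T ∧ rk S = rk T) ∨ rk S < rk T := by
  have hu := top_spec (h.mono hs) hn
  have hv := top_spec h (hn.mono hs)
  have hle := hv.2.2 _ (hs hu.1)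
  rcases hle.lt_or_eq with hlt | heq
  · have : ((top S).2 : ℕ) < (top T).2 := hlt
    have := rk_le S
    right; unfold rk at *; omega
  rcases four heq with e | e | e | e
  · simp only [rk, e, true_and]
    have := @hs (tr 3 (top T))
    split_ifs <;> first | omega | tauto
  · exact absurd (e ▸ hs hu.1) hv.2.1
  · exact absurd (e ▸ hs hu.1) (h _ hv.1)
  · right
    have h1 : tr 3 (top T) ∈ T := e ▸ hs hu.1
    have h2 : tr 3 (top S) ∉ S := fun h2 => h _ hv.1 (by
      have := hs h2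
      rwa [e, tr_tr, show (3 + 3 : Z4) = 2 by decide] at this)
    simp only [rk, if_pos h1, if_neg h2, heq]
    omega

theorem par_mono {S T : Finset (V m)} (h : AF T) (hp : Par T) (hn : S.Nonempty) (hs : S ⊆ T) :
    top S = top T ∨ (top S).2 < (top T).2 := by
  have hu := top_spec (h.mono hs) hn
  have hv := top_spec h (hn.mono hs)
  refine ((hv.2.2 _ (hs hu.1)).eq_or_lt).imp_left fun heq => ?_
  rcases hp _ (hs hu.1) _ hv.1 with e | e
  · exact Prod.ext e heq
  · exact absurd ((Prod.ext e heq : top S = tr 2 (top T)) ▸ hs hu.1) (h _ hv.1)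

theorem one_le_rk {S : Finset (V m)} (h : AF S) (hp : ¬ Par S) : 1 ≤ rk S := by
  simp only [Par, not_forall] at hp
  obtain ⟨u, hu, v, hv, hne⟩ := hp
  have ht := top_spec h ⟨u, hu⟩
  by_contra h0
  have h1 : ((top S).2 : ℕ) = 0 ∧ tr 3 (top S) ∉ S := by
    unfold rk at h0; split_ifs at h0 with h1
    · omega
    · exact ⟨by omega, h1⟩
  have : ∀ z ∈ S, z = top S := fun z hz => by
    have : (z.2 : ℕ) ≤ (top S).2 := ht.2.2 z hz
    rcases four (u := z) (v := top S) (Fin.ext (by omega)) with e | e | e | e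
    · exact e
    · exact absurd (e ▸ hz) ht.2.1
    · exact absurd (e ▸ hz) (h _ ht.1)
    · exact absurd (e ▸ hz) h1.2
  exact hne (by rw [this u hu, this v hv]; exact Ev_refl _)

/-! Words -/

variable {N : ℕ}

def Good (w : Fin (N + 1) → V m) : Prop := ∀ i j, (w i).2 = (w j).2 → Ev (w i).1 (w j).1 → i = j

def S (r : ℕ) (w : Fin (N + 1) → V m) (k : ℕ) : Finset (V m) :=
  (univ.filter fun i : Fin (N + 1) => i.val ≤ k + r).image w

theorem mem_S {r k : ℕ} {w : Fin (N + 1) → V m} {v : V m} :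
    v ∈ S r w k ↔ ∃ i : Fin (N + 1), i.val ≤ k + r ∧ w i = v := by simp [S]

theorem S_ne (r k : ℕ) (w : Fin (N + 1) → V m) : (S r w k).Nonempty :=
  ⟨w 0, mem_S.2 ⟨0, by simp, rfl⟩⟩

theorem S_mono (r k : ℕ) (w : Fin (N + 1) → V m) : S r w k ⊆ S r w (k + 1) := fun _ hv => by
  obtain ⟨i, h, e⟩ := mem_S.1 hv
  exact mem_S.2 ⟨i, by omega, e⟩

theorem S_tr (r k : ℕ) (g : Z4) (w : Fin (N + 1) → V m) :
    S r (fun i => tr g (w i)) k = sh g (S r w k) := by
  simp only [S, sh, image_image]; rfl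

theorem Good.af {w : Fin (N + 1) → V m} (h : Good w) (r k : ℕ) : AF (S r w k) := by
  intro v hv h2
  obtain ⟨i, -, e⟩ := mem_S.1 hv
  obtain ⟨j, -, e'⟩ := mem_S.1 h2
  obtain rfl : j = i := h j i (by rw [e, e']; rfl) (by rw [e, e']; exact Or.inr rfl)
  have := congrArg Prod.fst (e.symm.trans e')
  revert this
  show ¬ v.1 = 2 + v.1
  generalize v.1 = a; revert a; decide

theorem Good.inj {w : Fin (N + 1) → V m} (h : Good w) : Function.Injective w :=
  fun i j e => h i j (by rw [e]) (by rw [e]; exact Ev_refl _)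

theorem Good.tr {w : Fin (N + 1) → V m} (h : Good w) (g : Z4) : Good fun i => tr g (w i) :=
  fun i j a b => h i j a ((Ev_add g _ _).1 b)

theorem Good.perm {w : Fin (N + 1) → V m} (h : Good w) (π : Equiv.Perm (Fin (N + 1))) :
    Good (w ∘ π) := fun _ _ a b => π.injective (h _ _ a b)

theorem S_perm {r k : ℕ} (w : Fin (N + 1) → V m) (π : Equiv.Perm (Fin (N + 1)))
    (hπ : ∀ i, (π i).val ≤ k + r ↔ i.val ≤ k + r) : S r (w ∘ π) k = S r w k := by
  ext v
  simp only [mem_S]
  exact ⟨fun ⟨i, a, b⟩ => ⟨π i, (hπ i).2 a, b⟩,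
    fun ⟨i, a, b⟩ => ⟨π.symm i, (hπ _).1 (by simpa using a), by simpa using b⟩⟩

theorem swap_le {a b : Fin (N + 1)} (hab : b.val = a.val + 1) {t : ℕ} (ht : t ≠ a.val)
    (i : Fin (N + 1)) : (Equiv.swap a b i).val ≤ t ↔ i.val ≤ t := by
  rw [Equiv.swap_apply_def]
  split_ifs with h1 h2
  · subst h1; omega
  · subst h2; omega
  · rfl

/-- Replace the last letter by its antipode. -/
def fl (w : Fin (N + 1) → V m) : Fin (N + 1) → V m :=
  fun i => if i = Fin.last N then tr 2 (w i) else w i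

theorem fl_fl (w : Fin (N + 1) → V m) : fl (fl w) = w := funext fun i => by
  simp only [fl]; split_ifs
  · rw [tr_tr, show (2 + 2 : Z4) = 0 by decide, tr_zero]
  · rfl

theorem fl_ne (w : Fin (N + 1) → V m) : fl w ≠ w := fun h => by
  have := congrArg Prod.fst (congrFun h (Fin.last N))
  simp only [fl, if_true, tr] at this
  revert this
  generalize (w (Fin.last N)).1 = a; revert a; decide

theorem fl_ev (w : Fin (N + 1) → V m) (i j : Fin (N + 1)) :
    Ev (fl w i).1 (fl w j).1 ↔ Ev (w i).1 (w j).1 := by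
  simp only [fl]
  split_ifs <;> simp only [tr] <;> generalize (w i).1 = a <;> generalize (w j).1 = b <;>
    revert a b <;> decide

theorem Good.fl {w : Fin (N + 1) → V m} (h : Good w) : Good (fl w) := fun i j a b =>
  h i j (by revert a; simp only [Conn.fl]; split_ifs <;> exact id) ((fl_ev w i j).1 b)

theorem S_fl {r k : ℕ} (w : Fin (N + 1) → V m) (hk : k + r < N) : S r (fl w) k = S r w k := by
  ext v
  simp only [mem_S]
  refine exists_congr fun i => and_congr_right fun hi => ?_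
  rw [fl, if_neg (fun e => by rw [e, Fin.val_last] at hi; omega)]

/-- If the label changes at a step then the new letter is the new top element. -/
theorem top_new {r k : ℕ} {w : Fin (N + 1) → V m} (h : Good w) (i : Fin (N + 1))
    (hi : i.val = k + 1 + r) (hne : (top (S r w k)).1 ≠ (top (S r w (k + 1))).1) :
    top (S r w (k + 1)) = w i := by
  obtain ⟨j, hj, e⟩ := mem_S.1 (top_spec (h.af r (k + 1)) (S_ne r _ w)).1
  by_cases hji : j = i
  · rw [← e, hji]
  · refine absurd (congrArg Prod.fst (top_sub (h.af r _) (S_ne r _ w) (S_mono r k w) ?_)) hne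
    exact mem_S.2 ⟨j, by have := Fin.val_ne_of_ne hji; omega, e⟩

end Pool.Agent.P.MP_c446d6_co.Conn
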