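import Pool.Agent.P.MP_c446d6_co.Lower

/-! The complexes are free and connected; upper bounds for the cross-index. -/

set_option autoImplicit false
open Finset
open scoped Pointwise

namespace Pool.Agent.P.MP_c446d6_co.Conn

attribute [local instance] actV

variable {m d : ℕ}

theorem af_of {A : Finset (V m)} (h : ∀ u ∈ A, ∀ v ∈ A, u.2 = v.2 → u.1 ≠ 2 + v.1) : AF A :=
  fun v hv h2 => h _ h2 v hv rfl rfl

theorem free1 : IsFreeComplex G4 (V m) (K1 m) where
  nonempty _ h := h.1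
  vertex v := ⟨singleton_nonempty v, af_of (by
      simp only [mem_singleton, forall_eq]
      exact fun _ => (by decide : ∀ a : Z4, a ≠ 2 + a) _),
    Or.inl (by simp only [Par, mem_singleton, forall_eq]; exact Ev_refl _)⟩
  down _ h _ hn hs := ⟨hn, h.2.1.mono hs, h.2.2.imp (·.mono hs) fun a v hv => a v (hs hv)⟩
  smul_mem g _ h := ⟨h.1.image _, h.2.1.sh _, h.2.2.imp (Par_sh _).2 fun a => forall_sh.2 a⟩
  free _ _ h e := h.2.1.free h.1 e

theorem supp_np {T : Finset (V2 d)} (h : T.Nonempty) : ¬ Par (supp T) := fun hp => by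
  obtain ⟨p, hp'⟩ := h
  exact (by decide : ∀ a : Z4, ¬ Ev a (1 + a)) _
    (hp _ (mem_supp.2 ⟨p, hp', Or.inl rfl⟩) _ (mem_supp.2 ⟨p, hp', Or.inr rfl⟩))

theorem supp_ne {T : Finset (V2 d)} (h : T.Nonempty) : (supp T).Nonempty :=
  ⟨_, mem_supp.2 ⟨_, h.choose_spec, Or.inl rfl⟩⟩

theorem af_supp {T : Finset (V2 d)} (k : Z4) (h : ∀ p ∈ T, p.1 = k) : AF (supp T) :=
  af_of fun u hu v hv _ => by
    obtain ⟨p, hp, rfl | rfl⟩ := mem_supp.1 hu <;> obtain ⟨q, hq, rfl | rfl⟩ := mem_supp.1 hv <;>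
      simp only [h p hp, h q hq] <;> clear h <;> revert k <;> decide

theorem free2 : IsFreeComplex G4 (V2 d) (K2 d) where
  nonempty _ h := h.1
  vertex v := ⟨singleton_nonempty v, af_supp v.1 (by simp)⟩
  down _ h _ hn hs := ⟨hn, h.2.mono (supp_mono hs)⟩
  smul_mem g _ h := ⟨h.1.image _, by rw [smul_eq, supp_sh]; exact h.2.sh _⟩
  free g _ h e := h.2.free (g := g.toAdd) (supp_ne h.1) (by rw [← supp_sh, ← smul_eq, e])

theorem conn_of {J : Type} [DecidableEq J] (K : Set (Finset (Z4 × J))) (j0 j1 : J)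
    (h1 : ∀ k i j, {(k, i), (k, j)} ∈ K) (h2 : ∀ k, {(k, j0), (1 + k, j1)} ∈ K) :
    IsConnectedComplex K := by
  have r : ∀ a b, {a, b} ∈ K →
      (SimpleGraph.fromRel fun a b : Z4 × J => ({a, b} : Finset _) ∈ K).Reachable a b := by
    intro a b h
    by_cases e : a = b
    · rw [e]
    · exact SimpleGraph.Adj.reachable ((SimpleGraph.fromRel_adj _ _ _).2 ⟨e, Or.inl h⟩)
  have s := fun k i j => ((r _ _ (h1 k i j0)).trans (r _ _ (h2 k))).trans (r _ _ (h1 (1 + k) j1 j))
  have : Nonempty (Z4 × J) := ⟨(0, j0)⟩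
  refine ⟨fun a b => ?_⟩
  obtain ⟨k, i⟩ := a
  obtain ⟨l, j⟩ := b
  rcases (by decide : ∀ k l : Z4, l = k ∨ l = 1 + k ∨ k = 1 + l ∨ l = 1 + (1 + k)) k l
    with rfl | rfl | rfl | rfl
  · exact r _ _ (h1 _ _ _)
  · exact s _ _ _
  · exact (s _ _ _).symm
  · exact (s _ _ j0).trans (s _ _ _)

theorem conn1 : IsConnectedComplex (K1 m) := by
  refine conn_of _ 0 0 (fun k i j => ⟨by simp, af_of ?_, Or.inl ?_⟩)
    fun k => ⟨by simp, af_of ?_, Or.inr (by simp)⟩
  · simp only [mem_insert, mem_singleton]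
    rintro _ (rfl | rfl) _ (rfl | rfl) - <;> revert k <;> simp only <;> decide
  · simp only [Par, mem_insert, mem_singleton]
    rintro _ (rfl | rfl) _ (rfl | rfl) <;> exact Ev_refl _
  · simp only [mem_insert, mem_singleton]
    rintro _ (rfl | rfl) _ (rfl | rfl) - <;> revert k <;> simp only <;> decide

theorem conn2 (hd : 0 < d) : IsConnectedComplex (K2 d) := by
  refine conn_of _ (0, 0) (0, ⟨1, by omega⟩) (fun k i j => ⟨by simp, af_supp k (by simp)⟩)
    fun k => ⟨by simp, af_of fun u hu v hv => ?_⟩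
  simp only [mem_supp, mem_insert, mem_singleton, exists_eq_or_imp, exists_eq_left] at hu hv
  rcases hu with (rfl | rfl) | rfl | rfl <;> rcases hv with (rfl | rfl) | rfl | rfl <;>
    first
      | (intro _; revert k; simp only; decide)
      | simp [Fin.ext_iff]

theorem top_np {σ τ : Finset (V m)} (h : σ ∈ K1 m) (h' : τ ∈ K1 m) (hs : σ ⊆ τ) (hp : ¬ Par σ) :
    top σ = top τ := by
  have a := one_le_rk h.2.1 hp
  have b := rk_le τ
  rw [(h'.2.2.resolve_left fun c => hp (c.mono hs)) _ (top_spec h'.2.1 h'.1).1] at b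
  rcases rk_mono h'.2.1 h.1 hs with e | e
  · exact e.1
  · simp only [Fin.val_zero] at b; omega

open Classical in
theorem upper1 (hm : 0 < m) : HasMapTo G4 (K1 m) m := by
  refine ⟨fun σ => (Multiplicative.ofAdd (top σ).1, if Par σ then (top σ).2 else ⟨1, by omega⟩),
    fun σ h τ h' hs => ?_, fun g σ h => ?_⟩
  · by_cases p : Par σ
    · by_cases q : Par τ
      · simp only [if_pos p, if_pos q]
        exact (par_mono h'.2.1 q h.1 hs).imp_left fun e => by rw [e]
      · right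
        simp only [if_pos p, if_neg q]
        rw [(h'.2.2.resolve_left q) _ (hs (top_spec h.2.1 h.1).1)]
        exact Fin.lt_def.2 Nat.zero_lt_one
    · left
      simp only [if_neg p, if_neg fun c : Par τ => p (c.mono hs), top_np h h' hs p]
  · simp only [smul_eq, top_sh h.2.1 h.1, Par_sh]; rfl

theorem upper2 : HasMapTo G4 (K2 d) (2 * d) := by
  have b : ∀ A : Finset (V d), rk A - 1 < 2 * d + 1 := fun A => by
    have := rk_le A
    have := (top A).2.2
    omega
  refine ⟨fun T => (Multiplicative.ofAdd (top (supp T)).1, ⟨rk (supp T) - 1, b _⟩),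
    fun T h T' h' hs => ?_, fun g T h => ?_⟩
  · have := one_le_rk h.2 (supp_np h.1)
    refine (rk_mono h'.2 (supp_ne h.1) (supp_mono hs)).imp (fun e => by simp only [e.1, e.2])
      fun e => Fin.lt_def.2 (by simp only; omega)
  · simp only [smul_eq, supp_sh, top_sh h.2 (supp_ne h.1), rk_sh h.2 (supp_ne h.1)]; rfl

open Classical in
theorem upperP : HasMapTo G4 (K1 m ×ˢ K2 d) (d + 1) := by
  let E : Finset (V m) × Finset (V2 d) → Finset (V d) :=
    fun p => (supp p.2).filter fun v => ∀ u ∈ p.1, Ev u.1 v.1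
  have af : ∀ p ∈ K1 m ×ˢ K2 d, AF (E p) := fun p h => h.2.2.mono (filter_subset _ _)
  have ne : ∀ p ∈ K1 m ×ˢ K2 d, Par p.1 → (E p).Nonempty := fun p h hp => by
    obtain ⟨u, hu⟩ := h.1.1
    obtain ⟨q, hq⟩ := h.2.1
    have k : ∀ v ∈ supp p.2, Ev u.1 v.1 → (E p).Nonempty := fun v hv e =>
      ⟨v, mem_filter.2 ⟨hv, fun z hz => Ev_tr (hp u hu z hz) e⟩⟩
    rcases (by decide : ∀ a b : Z4, Ev a b ∨ Ev a (1 + b)) u.1 q.1 with e | e
    · exact k _ (mem_supp.2 ⟨q, hq, Or.inl rfl⟩) e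
    · exact k _ (mem_supp.2 ⟨q, hq, Or.inr rfl⟩) e
  refine ⟨fun p => if Par p.1 then (Multiplicative.ofAdd (top (E p)).1, (top (E p)).2.castSucc)
    else (Multiplicative.ofAdd (top p.1).1, Fin.last _), fun p h q h' hs => ?_, fun g p h => ?_⟩
  · by_cases a : Par p.1
    · by_cases b : Par q.1
      · simp only [if_pos a, if_pos b, Fin.castSucc_lt_castSucc_iff]
        obtain ⟨u, hu⟩ := h.1.1
        refine (par_mono (af q h') (fun x hx y hy => ?_) (ne p h a) fun v hv => ?_).imp_left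
          fun e => by rw [e]
        · exact Ev_tr ((mem_filter.1 hx).2 u (hs.1 hu)) ((mem_filter.1 hy).2 u (hs.1 hu))
        · exact mem_filter.2 ⟨supp_mono hs.2 (mem_filter.1 hv).1, fun z hz =>
            Ev_tr (b u (hs.1 hu) z hz) ((mem_filter.1 hv).2 u hu)⟩
      · right
        simp only [if_pos a, if_neg b]
        exact Fin.castSucc_lt_last _
    · left
      simp only [if_neg a, if_neg fun c : Par q.1 => a (c.mono hs.1), top_np h.1 h'.1 hs.1 a]
  · have e : E (g • p) = sh g.toAdd (E p) := by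
      ext v
      obtain ⟨q, rfl⟩ : ∃ q, tr g.toAdd q = v :=
        ⟨tr (-g.toAdd) v, by rw [tr_tr, add_neg_cancel, tr_zero]⟩
      simp only [E, Prod.smul_fst, Prod.smul_snd, smul_eq, supp_sh, mem_filter, tr_mem_sh,
        forall_sh]
      simp only [tr, Ev_add]
    simp only [e, Prod.smul_fst, smul_eq, Par_sh]
    split_ifs with a
    · rw [top_sh (af p h) (ne p h a)]; rfl
    · rw [top_sh h.1.2.1 h.1.1]; rfl

end Pool.Agent.P.MP_c446d6_co.Conn
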